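import Mathlib

set_option autoImplicit false

open Set MeasureTheory Measure Module
open scoped ENNReal RealInnerProductSpace Pointwise

namespace Pool.Agent.H490R3.ASA

/-- Euclidean space of dimension `m + 1`. -/
abbrev EE (m : ℕ) : Type := EuclideanSpace ℝ (Fin (m + 1))

variable {m : ℕ}

/-- The cylinder with base `X` and generating vector `w`. -/
def cyl (X : Set (EE m)) (w : EE m) : Set (EE m) :=
  (fun p : EE m × ℝ => p.1 + p.2 • w) '' (X ×ˢ Icc (0 : ℝ) 1)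

theorem finrank_hyp (ν : EE m) (hν : ‖ν‖ = 1) : finrank ℝ (ℝ ∙ ν)ᗮ = m := by
  have : Fact (finrank ℝ (EE m) = m + 1) := ⟨by simp⟩
  exact Submodule.finrank_orthogonal_span_singleton (by
    intro h; rw [h, norm_zero] at hν; exact zero_ne_one hν)

theorem mem_hyp (ν y : EE m) : y ∈ (ℝ ∙ ν)ᗮ ↔ ⟪ν, y⟫ = 0 :=
  Submodule.mem_orthogonal_singleton_iff_inner_right

/-- Coordinates along a hyperplane and its normal. -/
noncomputable def hypLin (ν : EE m) : ((ℝ ∙ ν)ᗮ × ℝ) →ₗ[ℝ] EE m where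
  toFun p := (p.1 : EE m) + p.2 • ν
  map_add' p q := by simp only [Prod.fst_add, Prod.snd_add, Submodule.coe_add, add_smul]; abel
  map_smul' r p := by simp [smul_smul]

theorem hypLin_bij (ν : EE m) (hν : ‖ν‖ = 1) : Function.Bijective (hypLin ν) := by
  have h1 : ⟪ν, ν⟫ = 1 := by rw [real_inner_self_eq_norm_sq, hν]; norm_num
  constructor
  · rw [← LinearMap.ker_eq_bot, LinearMap.ker_eq_bot']
    rintro ⟨y, t⟩ h
    have hy : ⟪ν, (y : EE m)⟫ = 0 := (mem_hyp ν _).mp y.2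
    have h' : (y : EE m) + t • ν = 0 := h
    have ht : t = 0 := by
      have : ⟪ν, (y : EE m) + t • ν⟫ = 0 := by rw [h', inner_zero_right]
      rw [inner_add_right, inner_smul_right, hy, h1] at this
      linarith
    subst ht
    simp only [zero_smul, add_zero] at h'
    ext1
    · exact Subtype.ext h'
    · rfl
  · intro x
    refine ⟨(⟨x - ⟪ν, x⟫ • ν, ?_⟩, ⟪ν, x⟫), ?_⟩
    · rw [mem_hyp, inner_sub_right, inner_smul_right, h1]; ring
    · show x - ⟪ν, x⟫ • ν + ⟪ν, x⟫ • ν = x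
      abel

theorem cylK (ν : EE m) (hν : ‖ν‖ = 1) : ∃ c : ℝ≥0∞, ∀ Y : Set (EE m), MeasurableSet Y →
    (∀ y ∈ Y, ⟪ν, y⟫ = 0) → μH[(m : ℝ)] Y = c * volume (cyl Y ν) := by
  classical
  set V := (ℝ ∙ ν)ᗮ with hV
  let e : (V × ℝ) ≃L[ℝ] EE m := (LinearEquiv.ofBijective (hypLin ν) (hypLin_bij ν hν)).toContinuousLinearEquiv
  have he : ∀ p : V × ℝ, e p = (p.1 : EE m) + p.2 • ν := fun p => rfl
  have hfr : finrank ℝ V = m := finrank_hyp ν hν
  let μV : Measure V := μH[(finrank ℝ V : ℝ)]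
  have : μV.IsAddHaarMeasure := isAddHaarMeasure_hausdorffMeasure
  have : (μV.prod (volume : Measure ℝ)).IsAddHaarMeasure := prod.instIsAddHaarMeasure _ _
  have h3 : ((μV.prod (volume : Measure ℝ)).map e).IsAddHaarMeasure := e.isAddHaarMeasure_map _
  obtain ⟨c, hc⟩ : ∃ c : ℝ≥0∞, (μV.prod (volume : Measure ℝ)).map e = c • (volume : Measure (EE m)) :=
    ⟨_, isAddLeftInvariant_eq_smul _ _⟩
  refine ⟨c, fun Y hY hY0 => ?_⟩
  have h4 : ((μV.prod (volume : Measure ℝ)).map e) (cyl Y ν) = c * volume (cyl Y ν) := by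
    rw [hc]; rfl
  have hmap : (e : (V × ℝ) → EE m) = (e.toHomeomorph.toMeasurableEquiv : (V × ℝ) → EE m) := rfl
  rw [← h4, hmap, e.toHomeomorph.toMeasurableEquiv.map_apply]
  have h5 : e.toHomeomorph.toMeasurableEquiv ⁻¹' (cyl Y ν) = (Subtype.val ⁻¹' Y) ×ˢ Icc (0 : ℝ) 1 := by
    ext p
    constructor
    · rintro ⟨⟨y, t⟩, ⟨hy, ht⟩, h⟩
      have h6 : e p = e (⟨y, (mem_hyp ν y).mpr (hY0 y hy)⟩, t) := h.symm
      have h7 := e.injective h6
      rw [h7]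
      exact ⟨hy, ht⟩
    · rintro ⟨h1, h2⟩
      exact ⟨((p.1 : EE m), p.2), ⟨h1, h2⟩, rfl⟩
  rw [h5, prod_prod, Real.volume_Icc]
  norm_num
  have h8 : Y = Subtype.val '' ((Subtype.val : V → EE m) ⁻¹' Y) := by
    rw [image_preimage_eq_inter_range, eq_comm, inter_eq_left]
    intro y hy
    exact ⟨⟨y, (mem_hyp ν y).mpr (hY0 y hy)⟩, rfl⟩
  have h9 : μV (Subtype.val ⁻¹' Y) = μH[(m : ℝ)] ((Subtype.val : V → EE m) ⁻¹' Y) := by
    show μH[(finrank ℝ V : ℝ)] _ = _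
    rw [hfr]
  rw [h9]
  conv_lhs => rw [h8]
  exact (isometry_subtype_coe (s := (V : Set (EE m)))).hausdorffMeasure_image (Or.inl (by positivity)) _

theorem exists_refl (ν ν' : EE m) (h : ‖ν‖ = ‖ν'‖) : ∃ R : EE m ≃ₗᵢ[ℝ] EE m, R ν = ν' :=
  ⟨Submodule.reflection (ℝ ∙ (ν - ν'))ᗮ, Submodule.reflection_sub h⟩

theorem cyl_image (L : EE m →ₗ[ℝ] EE m) (X : Set (EE m)) (w : EE m) :
    cyl (L '' X) (L w) = L '' cyl X w := by
  ext z
  constructor
  · rintro ⟨⟨_, t⟩, ⟨⟨x, hx, rfl⟩, ht⟩, rfl⟩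
    exact ⟨x + t • w, ⟨(x, t), ⟨hx, ht⟩, rfl⟩, by simp⟩
  · rintro ⟨_, ⟨⟨x, t⟩, ⟨hx, ht⟩, rfl⟩, rfl⟩
    exact ⟨(L x, t), ⟨⟨x, hx, rfl⟩, ht⟩, by simp⟩

/-- The area of the image of a set in a linear hyperplane. -/
theorem areaJ0 (A : EE m ≃ₗ[ℝ] EE m) (ν b : EE m) (hν : ‖ν‖ = 1) (hb : ∀ x, ⟪b, A x⟫ = ⟪ν, x⟫)
    (X : Set (EE m)) (hX : MeasurableSet X) (hX0 : ∀ x ∈ X, ⟪ν, x⟫ = 0) :
    μH[(m : ℝ)] (A '' X) = ENNReal.ofReal (|LinearMap.det (A : EE m →ₗ[ℝ] EE m)| * ‖b‖) * μH[(m : ℝ)] X := by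
  have h1 : ⟪ν, ν⟫ = 1 := by rw [real_inner_self_eq_norm_sq, hν]; norm_num
  have hb0 : b ≠ 0 := by
    intro h
    have := hb ν
    rw [h, inner_zero_left, h1] at this
    exact zero_ne_one this
  have hbn : 0 < ‖b‖ := norm_pos_iff.mpr hb0
  set k : EE m := ‖b‖⁻¹ • b with hk
  have hkn : ‖k‖ = 1 := by rw [hk, norm_smul, norm_inv, norm_norm, inv_mul_cancel₀ hbn.ne']
  have hbk : ⟪b, k⟫ = ‖b‖ := by
    rw [hk, inner_smul_right, real_inner_self_eq_norm_sq]; field_simp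
  obtain ⟨c, hc⟩ := cylK k hkn
  obtain ⟨R, hR⟩ := exists_refl ν k (by rw [hν, hkn])
  set T : EE m →ₗ[ℝ] EE m := LinearMap.transvection (innerₛₗ ℝ ν : EE m →ₗ[ℝ] ℝ) (A.symm k - ν) with hT
  have hTa : ∀ x, T x = x + ⟪ν, x⟫ • (A.symm k - ν) := fun x => by
    rw [hT, LinearMap.transvection.apply]; rfl
  set M : EE m →ₗ[ℝ] EE m := (A : EE m →ₗ[ℝ] EE m) ∘ₗ T with hM
  have hMν : M ν = k := by
    rw [hM, LinearMap.comp_apply, hTa, h1, one_smul]
    simp
  have hMX : M '' X = A '' X := by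
    apply image_congr
    intro x hx
    rw [hM, LinearMap.comp_apply, hTa, hX0 x hx, zero_smul, add_zero]
    rfl
  have hdetM : LinearMap.det M = LinearMap.det (A : EE m →ₗ[ℝ] EE m) * ‖b‖ := by
    rw [hM, LinearMap.det_comp, hT, LinearMap.transvection.det]
    congr 1
    show 1 + ⟪ν, A.symm k - ν⟫ = ‖b‖
    rw [inner_sub_right, h1, ← hb (A.symm k)]
    simp [hbk]
  have hAX : MeasurableSet (A '' X) := by
    have : (A : EE m → EE m) = (A.toContinuousLinearEquiv.toHomeomorph : EE m → EE m) := rfl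
    rw [this, Homeomorph.image_eq_preimage_symm]
    exact A.toContinuousLinearEquiv.toHomeomorph.symm.continuous.measurable hX
  have e1 : μH[(m : ℝ)] (A '' X) = c * volume (cyl (A '' X) k) := by
    apply hc _ hAX
    rintro _ ⟨x, hx, rfl⟩
    rw [hk, real_inner_smul_left, hb, hX0 x hx, mul_zero]
  have e2 : cyl (A '' X) k = M '' cyl X ν := by
    rw [← hMX]
    conv_lhs => rw [← hMν]
    exact cyl_image M X ν
  have hRm : MeasurableSet (R '' X) := by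
    have : (R : EE m → EE m) = (R.toHomeomorph : EE m → EE m) := rfl
    rw [this, Homeomorph.image_eq_preimage_symm]
    exact R.toHomeomorph.symm.continuous.measurable hX
  have e3 : μH[(m : ℝ)] (R '' X) = c * volume (cyl (R '' X) k) := by
    apply hc _ hRm
    rintro _ ⟨x, hx, rfl⟩
    rw [← hR, R.inner_map_map, hX0 x hx]
  have e4 : cyl (R '' X) k = R '' cyl X ν := by
    rw [← hR]
    exact cyl_image (R.toLinearEquiv : EE m →ₗ[ℝ] EE m) X ν
  have e5 : volume (R '' cyl X ν) = volume (cyl X ν) := by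
    have h7 := addHaar_image_linearMap (volume : Measure (EE m)) (R.toLinearEquiv : EE m →ₗ[ℝ] EE m) (cyl X ν)
    have h8 : |LinearMap.det (R.toLinearEquiv : EE m →ₗ[ℝ] EE m)| = 1 := by
      have := LinearMap.normDet_eq_abs_det (R.toLinearEquiv : EE m →ₗ[ℝ] EE m)
      rw [← this]
      exact R.toLinearIsometry.normDet_eq_one
    rw [h8, ENNReal.ofReal_one, one_mul] at h7
    exact h7
  have e6 : μH[(m : ℝ)] (R '' X) = μH[(m : ℝ)] X := R.toIsometryEquiv.hausdorffMeasure_image _ _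
  rw [e1, e2, addHaar_image_linearMap, hdetM, ← e6, e3, e4, e5, abs_mul, abs_of_pos hbn]
  ring

/-- The area of the image of a set in an affine hyperplane. -/
theorem areaJ (A : EE m ≃ₗ[ℝ] EE m) (ν b : EE m) (hν : ν ≠ 0) (hb : ∀ x, ⟪b, A x⟫ = ⟪ν, x⟫)
    (X : Set (EE m)) (hX : MeasurableSet X) (c : ℝ) (hXc : ∀ x ∈ X, ⟪ν, x⟫ = c) :
    μH[(m : ℝ)] (A '' X) =
      ENNReal.ofReal (|LinearMap.det (A : EE m →ₗ[ℝ] EE m)| * (‖b‖ / ‖ν‖)) * μH[(m : ℝ)] X := by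
  have hn : 0 < ‖ν‖ := norm_pos_iff.mpr hν
  set p : EE m := (c / ‖ν‖ ^ 2) • ν with hp
  set Y : Set (EE m) := (fun x => x - p) '' X with hY
  have hYm : MeasurableSet Y := by
    have : (fun x : EE m => x - p) = (Homeomorph.subRight p : EE m → EE m) := rfl
    rw [hY, this, Homeomorph.image_eq_preimage_symm]
    exact (Homeomorph.subRight p).symm.continuous.measurable hX
  have e1 : μH[(m : ℝ)] Y = μH[(m : ℝ)] X := (IsometryEquiv.subRight p).hausdorffMeasure_image _ _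
  have e2 : μH[(m : ℝ)] (A '' Y) = μH[(m : ℝ)] (A '' X) := by
    have : A '' Y = (IsometryEquiv.subRight (A p)) '' (A '' X) := by
      rw [hY, image_image, image_image]
      apply image_congr
      intro x _
      simp
    rw [this, (IsometryEquiv.subRight (A p)).hausdorffMeasure_image]
  rw [← e1, ← e2]
  have h := areaJ0 A (‖ν‖⁻¹ • ν) (‖ν‖⁻¹ • b) (by rw [norm_smul, norm_inv, norm_norm, inv_mul_cancel₀ hn.ne'])
    (fun x => by rw [real_inner_smul_left, real_inner_smul_left, hb]) Y hYm (by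
      rintro _ ⟨x, hx, rfl⟩
      show ⟪‖ν‖⁻¹ • ν, x - p⟫ = 0
      rw [real_inner_smul_left, inner_sub_right, hXc x hx, hp, inner_smul_right, real_inner_self_eq_norm_sq]
      field_simp
      ring)
  rw [h, norm_smul, norm_inv, norm_norm]
  congr 2
  ring

end Pool.Agent.H490R3.ASA
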