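import Mathlib

set_option autoImplicit false

namespace Pool.Agent.H490R3.ASA

variable {F : Type*} [NormedAddCommGroup F] [InnerProductSpace ℝ F]

/-- Hlawka's inequality in an inner product space. -/
theorem hlawka (x y z : F) :
    ‖x + y‖ + ‖y + z‖ + ‖z + x‖ ≤ ‖x‖ + ‖y‖ + ‖z‖ + ‖x + y + z‖ := by
  set a := ‖x‖ with ha
  set b := ‖y‖ with hb
  set c := ‖z‖ with hc
  set s := ‖x + y + z‖ with hs
  set p := ‖x + y‖ with hp
  set q := ‖y + z‖ with hq
  set r := ‖z + x‖ with hr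
  have a0 : 0 ≤ a := norm_nonneg _
  have b0 : 0 ≤ b := norm_nonneg _
  have c0 : 0 ≤ c := norm_nonneg _
  have s0 : 0 ≤ s := norm_nonneg _
  have h1 : p ≤ a + b := norm_add_le _ _
  have h2 : q ≤ b + c := norm_add_le _ _
  have h3 : r ≤ c + a := norm_add_le _ _
  have h4 : p ≤ s + c := by
    have : x + y = (x + y + z) - z := by abel
    rw [hp, this]; exact norm_sub_le _ _
  have h5 : q ≤ s + a := by
    have : y + z = (x + y + z) - x := by abel
    rw [hq, this]; exact norm_sub_le _ _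
  have h6 : r ≤ s + b := by
    have : z + x = (x + y + z) - y := by abel
    rw [hr, this]; exact norm_sub_le _ _
  have hid : a ^ 2 + b ^ 2 + c ^ 2 + s ^ 2 = p ^ 2 + q ^ 2 + r ^ 2 := by
    simp only [ha, hb, hc, hs, hp, hq, hr, ← real_inner_self_eq_norm_sq, inner_add_left, inner_add_right]
    rw [real_inner_comm x y, real_inner_comm x z, real_inner_comm y z]
    ring
  by_contra hcon
  push Not at hcon
  have key : (a + b + c + s - p - q - r) * (a + b + c + s) =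
      (a + b - p) * (s + c - p) + (b + c - q) * (s + a - q) + (c + a - r) * (s + b - r) := by
    linear_combination (1 : ℝ) * hid
  have k1 : 0 ≤ (a + b - p) * (s + c - p) := mul_nonneg (by linarith) (by linarith)
  have k2 : 0 ≤ (b + c - q) * (s + a - q) := mul_nonneg (by linarith) (by linarith)
  have k3 : 0 ≤ (c + a - r) * (s + b - r) := mul_nonneg (by linarith) (by linarith)
  have hD : 0 < a + b + c + s := by
    rcases (add_nonneg (add_nonneg (add_nonneg a0 b0) c0) s0).lt_or_eq with h | h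
    · exact h
    · exfalso
      have : a = 0 := by linarith
      have : b = 0 := by linarith
      have : c = 0 := by linarith
      linarith
  have : (a + b + c + s - p - q - r) * (a + b + c + s) < 0 :=
    mul_neg_of_neg_of_pos (by linarith) hD
  linarith

theorem eight (x y z u : F) : 4 * (‖x‖ + ‖y‖ + ‖z‖) ≤
    ‖-x + y + z + u‖ + ‖-x + y + z - u‖ + (‖x - y + z + u‖ + ‖x - y + z - u‖) +
    (‖x + y - z + u‖ + ‖x + y - z - u‖) + (‖x + y + z + u‖ + ‖x + y + z - u‖) := by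
  have h : ∀ v w : F, 2 * ‖v‖ ≤ ‖v + w‖ + ‖v - w‖ := by
    intro v w
    have : (2 : ℝ) • v = (v + w) + (v - w) := by rw [two_smul]; abel
    calc 2 * ‖v‖ = ‖(2 : ℝ) • v‖ := by rw [norm_smul]; norm_num
      _ = ‖(v + w) + (v - w)‖ := by rw [this]
      _ ≤ _ := norm_add_le _ _
  have h1 := h (-x + y + z) u
  have h2 := h (x - y + z) u
  have h3 := h (x + y - z) u
  have h4 := h (x + y + z) u
  have h5 := hlawka (-x + y + z) (x - y + z) (x + y - z)
  have e1 : -x + y + z + (x - y + z) = (2 : ℝ) • z := by rw [two_smul]; abel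
  have e2 : x - y + z + (x + y - z) = (2 : ℝ) • x := by rw [two_smul]; abel
  have e3 : x + y - z + (-x + y + z) = (2 : ℝ) • y := by rw [two_smul]; abel
  have e4 : (2 : ℝ) • z + (x + y - z) = x + y + z := by rw [two_smul]; abel
  have n2 : ∀ v : F, ‖(2 : ℝ) • v‖ = 2 * ‖v‖ := fun v => by rw [norm_smul]; norm_num
  rw [e1, e2, e3, e4, n2, n2, n2] at h5
  linarith

/-- signed sums -/
noncomputable def S {n : ℕ} (b : Fin n → F) (σ : Fin n → ℤˣ) : F := ∑ i, ((σ i : ℤ) : ℝ) • b i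

theorem key3 {n : ℕ} (b : Fin n → F) {i j k : Fin n} (hij : i ≠ j) (hik : i ≠ k) (hjk : j ≠ k) :
    2 ^ n * (‖b i‖ + ‖b j‖ + ‖b k‖) ≤ 2 * ∑ σ, ‖S b σ‖ := by
  classical
  have hτ : ∀ τ : Fin n → ℤˣ, ∑ σ, ‖S b σ‖ = ∑ σ, ‖S b (τ * σ)‖ := fun τ =>
    (Equiv.sum_comp (Equiv.mulLeft τ) (fun σ => ‖S b σ‖)).symm
  let t : ℤˣ → ℤˣ → ℤˣ → ℤˣ → (Fin n → ℤˣ) := fun e1 e2 e3 e l =>
    if l = i then e1 else if l = j then e2 else if l = k then e3 else e
  let R : Finset (Fin n) := ((Finset.univ.erase i).erase j).erase k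
  have hsplit : ∀ f : Fin n → F, ∑ l, f l = f i + f j + f k + ∑ l ∈ R, f l := by
    intro f
    rw [← Finset.add_sum_erase Finset.univ f (Finset.mem_univ i),
      ← Finset.add_sum_erase (Finset.univ.erase i) f (a := j) (by simp [hij.symm]),
      ← Finset.add_sum_erase ((Finset.univ.erase i).erase j) f (a := k) (by simp [hik.symm, hjk.symm])]
    abel
  have hS : ∀ (σ : Fin n → ℤˣ) (e1 e2 e3 e : ℤˣ), S b (t e1 e2 e3 e * σ) =
      ((e1 : ℤ) : ℝ) • (((σ i : ℤ) : ℝ) • b i) + ((e2 : ℤ) : ℝ) • (((σ j : ℤ) : ℝ) • b j) +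
      ((e3 : ℤ) : ℝ) • (((σ k : ℤ) : ℝ) • b k) + ((e : ℤ) : ℝ) • ∑ l ∈ R, ((σ l : ℤ) : ℝ) • b l := by
    intro σ e1 e2 e3 e
    unfold S
    rw [hsplit, Finset.smul_sum]
    congr 1
    · simp only [t, Pi.mul_apply, if_true, if_neg hij.symm, if_neg hik.symm, if_neg hjk.symm,
        Units.val_mul, Int.cast_mul, mul_smul]
    · apply Finset.sum_congr rfl
      intro l hl
      simp only [R, Finset.mem_erase] at hl
      simp only [t, Pi.mul_apply, if_neg hl.1, if_neg hl.2.1, if_neg hl.2.2.1,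
        Units.val_mul, Int.cast_mul, mul_smul]
  have hns : ∀ (e : ℤˣ) (v : F), ‖((e : ℤ) : ℝ) • v‖ = ‖v‖ := by
    intro e v
    rcases Int.units_eq_one_or e with rfl | rfl <;> simp
  have hpt : ∀ σ : Fin n → ℤˣ, 4 * (‖b i‖ + ‖b j‖ + ‖b k‖) ≤
      ‖S b (t (-1) 1 1 1 * σ)‖ + ‖S b (t (-1) 1 1 (-1) * σ)‖ +
      (‖S b (t 1 (-1) 1 1 * σ)‖ + ‖S b (t 1 (-1) 1 (-1) * σ)‖) +
      (‖S b (t 1 1 (-1) 1 * σ)‖ + ‖S b (t 1 1 (-1) (-1) * σ)‖) +
      (‖S b (t 1 1 1 1 * σ)‖ + ‖S b (t 1 1 1 (-1) * σ)‖) := by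
    intro σ
    have h := eight (((σ i : ℤ) : ℝ) • b i) (((σ j : ℤ) : ℝ) • b j) (((σ k : ℤ) : ℝ) • b k)
      (∑ l ∈ R, ((σ l : ℤ) : ℝ) • b l)
    rw [hns, hns, hns] at h
    simp only [hS]
    simp only [Units.val_neg, Units.val_one, Int.cast_neg, Int.cast_one, neg_smul, one_smul]
    simpa only [sub_eq_add_neg] using h
  have hsum := Finset.sum_le_sum (fun σ (_ : σ ∈ (Finset.univ : Finset (Fin n → ℤˣ))) => hpt σ)
  simp only [Finset.sum_add_distrib] at hsum
  rw [← hτ, ← hτ, ← hτ, ← hτ, ← hτ, ← hτ, ← hτ, ← hτ, Finset.sum_const, Finset.card_univ] at hsum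
  have hcard : Fintype.card (Fin n → ℤˣ) = 2 ^ n := by
    rw [Fintype.card_fun]
    simp
  rw [hcard, nsmul_eq_mul] at hsum
  push_cast at hsum
  linarith

theorem key (k : ℕ) (b : Fin (k + 3) → F) :
    3 * (2 ^ (k + 3) * ∑ i, ‖b i‖) ≤ 2 * ((k : ℝ) + 3) * ∑ σ, ‖S b σ‖ := by
  have h1 : (1 : Fin (k + 3)) ≠ 0 := by
    intro h; have := congrArg Fin.val h; simp at this
  have v2 : ((2 : Fin (k + 3)) : ℕ) = 2 := by
    show (2 % (k + 3) : ℕ) = 2
    exact Nat.mod_eq_of_lt (show 2 < k + 3 by omega)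
  have h2 : (2 : Fin (k + 3)) ≠ 0 := by
    intro h; have := congrArg Fin.val h
    rw [v2] at this
    simp at this
  have hk : ∀ i : Fin (k + 3), 2 ^ (k + 3) * (‖b i‖ + ‖b (i + 1)‖ + ‖b (i + 2)‖) ≤ 2 * ∑ σ, ‖S b σ‖ := by
    intro i
    apply key3
    · intro h; exact h1 (by simpa using h.symm)
    · intro h; exact h2 (by simpa using h.symm)
    · intro h
      have h3 : (1 : Fin (k + 3)) = 2 := by simpa using h
      have := congrArg Fin.val h3
      rw [v2] at this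
      simp at this
  have hsum := Finset.sum_le_sum (fun i (_ : i ∈ (Finset.univ : Finset (Fin (k + 3)))) => hk i)
  rw [← Finset.mul_sum, Finset.sum_add_distrib, Finset.sum_add_distrib, Finset.sum_const,
    Finset.card_univ, Fintype.card_fin, nsmul_eq_mul] at hsum
  have e1 : ∑ i, ‖b (i + 1)‖ = ∑ i, ‖b i‖ := Equiv.sum_comp (Equiv.addRight (1 : Fin (k + 3))) (fun i => ‖b i‖)
  have e2 : ∑ i, ‖b (i + 2)‖ = ∑ i, ‖b i‖ := Equiv.sum_comp (Equiv.addRight (2 : Fin (k + 3))) (fun i => ‖b i‖)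
  rw [e1, e2] at hsum
  push_cast at hsum
  linarith

end Pool.Agent.H490R3.ASA
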