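import Mathlib
import Pool.Agent.H490R3.ASA.Area

set_option autoImplicit false

open Set MeasureTheory Measure Module
open scoped ENNReal RealInnerProductSpace Pointwise

namespace Pool.Agent.H490R3.ASA

variable {m : ℕ}

/-- the vector with all coordinates one -/
noncomputable def one (m : ℕ) : EE m := WithLp.toLp 2 (fun _ => (1 : ℝ))

theorem one_inner (x : EE m) : ⟪one m, x⟫ = ∑ i, x i := by
  unfold one
  rw [PiLp.inner_apply]
  simp

theorem one_ne : one m ≠ 0 := by
  intro h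
  have h1 : (one m) 0 = (0 : EE m) 0 := by rw [h]
  exact one_ne_zero (α := ℝ) h1

/-- coordinate vectors -/
noncomputable def ee (i : Fin (m + 1)) : EE m := EuclideanSpace.single i (1 : ℝ)

theorem ee_inner (i : Fin (m + 1)) (x : EE m) : ⟪ee i, x⟫ = x i := by
  unfold ee; simp [EuclideanSpace.inner_single_left]

theorem ee_norm (i : Fin (m + 1)) : ‖(ee i : EE m)‖ = 1 := by
  unfold ee; simp

theorem ee_apply (i j : Fin (m + 1)) : (ee i : EE m) j = if j = i then 1 else 0 := by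
  unfold ee; simp

/-- sign changes -/
noncomputable def D (σ : Fin (m + 1) → ℤˣ) : EE m ≃ₗᵢ[ℝ] EE m :=
  LinearIsometryEquiv.piLpCongrRight 2
    (fun i => if σ i = 1 then LinearIsometryEquiv.refl ℝ ℝ else LinearIsometryEquiv.neg ℝ)

theorem D_apply (σ : Fin (m + 1) → ℤˣ) (x : EE m) (i : Fin (m + 1)) :
    D σ x i = ((σ i : ℤ) : ℝ) * x i := by
  have : D σ x i = (if σ i = 1 then LinearIsometryEquiv.refl ℝ ℝ else LinearIsometryEquiv.neg ℝ) (x i) := rfl
  rw [this]
  rcases Int.units_eq_one_or (σ i) with h | h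
  · simp [h]
  · rw [h]; simp

/-- closed facet -/
def Fc (m : ℕ) : Set (EE m) := {x | (∀ i, 0 ≤ x i) ∧ ∑ i, x i = 1}
/-- open facet -/
def Fo (m : ℕ) : Set (EE m) := {x | (∀ i, 0 < x i) ∧ ∑ i, x i = 1}
/-- truncated facet -/
def G (m : ℕ) (α s : ℝ) : Set (EE m) := {x | (∀ i, 0 ≤ x i) ∧ ∑ i, x i = α ∧ ∀ i, x i ≤ α - s}
/-- coordinate facet, one orthant -/
def Q (i : Fin (m + 1)) (α s : ℝ) : Set (EE m) :=
  {x | (∀ j, 0 ≤ x j) ∧ x i = α - s ∧ ∑ j, x j ≤ α}

theorem contc (i : Fin (m + 1)) : Continuous (fun x : EE m => x i) := by fun_prop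

theorem Fc_closed : IsClosed (Fc m) := by
  unfold Fc
  refine IsClosed.inter ?_ ?_
  · have : {x : EE m | ∀ i, 0 ≤ x i} = ⋂ i, {x | 0 ≤ x i} := by ext; simp
    show IsClosed {x : EE m | ∀ i, 0 ≤ x i}
    rw [this]
    exact isClosed_iInter fun i => isClosed_le continuous_const (contc i)
  · exact isClosed_eq (by fun_prop) continuous_const

theorem Fo_meas : MeasurableSet (Fo m) := by
  have : Fo m = (⋂ i, {x : EE m | 0 < x i}) ∩ {x | ∑ i, x i = 1} := by
    ext x; simp [Fo]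
  rw [this]
  exact (MeasurableSet.iInter fun i => (isOpen_lt continuous_const (contc i)).measurableSet).inter
    (isClosed_eq (by fun_prop) continuous_const).measurableSet

theorem G_closed (α s : ℝ) : IsClosed (G m α s) := by
  have : G m α s = ((⋂ i, {x : EE m | 0 ≤ x i}) ∩ {x | ∑ i, x i = α}) ∩ ⋂ i, {x : EE m | x i ≤ α - s} := by
    ext x; simp [G, and_assoc]
  rw [this]
  exact ((isClosed_iInter fun i => isClosed_le continuous_const (contc i)).inter
    (isClosed_eq (by fun_prop) continuous_const)).inter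
    (isClosed_iInter fun i => isClosed_le (contc i) continuous_const)

theorem Q_closed (i : Fin (m + 1)) (α s : ℝ) : IsClosed (Q i α s) := by
  have : Q i α s = ((⋂ i, {x : EE m | 0 ≤ x i}) ∩ {x | x i = α - s}) ∩ {x : EE m | ∑ i, x i ≤ α} := by
    ext x; simp [Q, and_assoc]
  rw [this]
  exact ((isClosed_iInter fun i => isClosed_le continuous_const (contc i)).inter
    (isClosed_eq (contc i) continuous_const)).inter (isClosed_le (by fun_prop) continuous_const)

/-- translations preserve Hausdorff measure -/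
theorem mu_sub (p : EE m) (X : Set (EE m)) : μH[(m : ℝ)] ((fun x => x - p) '' X) = μH[(m : ℝ)] X :=
  (IsometryEquiv.subRight p).hausdorffMeasure_image _ _

theorem mu_smul {r : ℝ} (hr : 0 < r) (X : Set (EE m)) :
    μH[(m : ℝ)] (r • X) = ENNReal.ofReal (r ^ m) * μH[(m : ℝ)] X := by
  rw [Measure.hausdorffMeasure_smul₀ (by positivity) hr.ne']
  rw [ENNReal.smul_def, smul_eq_mul]
  congr 1
  rw [NNReal.rpow_natCast, ENNReal.coe_pow, ENNReal.ofReal_pow hr.le]
  congr 1
  rw [← Real.toNNReal_eq_nnnorm_of_nonneg hr.le]; rfl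


theorem abs_le_norm (x : EE m) (i : Fin (m + 1)) : |x i| ≤ ‖x‖ := by
  have h := abs_real_inner_le_norm (ee i) x
  rwa [ee_inner, ee_norm, one_mul] at h

theorem norm_le_sum (x : EE m) : ‖x‖ ≤ ∑ i, |x i| := by
  have : x = ∑ i, x i • ee i := by
    ext j
    simp [ee_apply, Finset.sum_apply]
  calc ‖x‖ = ‖∑ i, x i • ee i‖ := by rw [← this]
    _ ≤ ∑ i, ‖x i • ee i‖ := norm_sum_le _ _
    _ = ∑ i, |x i| := by
      apply Finset.sum_congr rfl
      intro i _
      rw [norm_smul, ee_norm, mul_one, Real.norm_eq_abs]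

/-- compact sets in affine hyperplanes have finite area -/
theorem finite_area (X : Set (EE m)) (hX : IsCompact X) (ν : EE m) (hν : ‖ν‖ = 1)
    (c : ℝ) (hc : ∀ x ∈ X, ⟪ν, x⟫ = c) : μH[(m : ℝ)] X < ∞ := by
  have h1 : ⟪ν, ν⟫ = 1 := by rw [real_inner_self_eq_norm_sq, hν]; norm_num
  rw [← mu_sub (c • ν) X]
  set Y := (fun x => x - c • ν) '' X with hY
  have hYc : IsCompact Y := hX.image (by fun_prop)
  set V := (ℝ ∙ ν)ᗮ with hV
  have hfr : finrank ℝ V = m := finrank_hyp ν hν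
  have hY0 : ∀ y ∈ Y, y ∈ V := by
    rintro _ ⟨x, hx, rfl⟩
    rw [hV, mem_hyp, inner_sub_right, inner_smul_right, h1, hc x hx]
    ring
  have h8 : Y = Subtype.val '' ((Subtype.val : V → EE m) ⁻¹' Y) := by
    rw [image_preimage_eq_inter_range, eq_comm, inter_eq_left]
    intro y hy
    exact ⟨⟨y, hY0 y hy⟩, rfl⟩
  have hiso : μH[(m : ℝ)] (Subtype.val '' ((Subtype.val : V → EE m) ⁻¹' Y)) =
      μH[(m : ℝ)] ((Subtype.val : V → EE m) ⁻¹' Y) :=
    (isometry_subtype_coe (s := (V : Set (EE m)))).hausdorffMeasure_image (Or.inl (by positivity)) _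
  rw [h8, hiso]
  have h9 : IsCompact ((Subtype.val : V → EE m) ⁻¹' Y) := by
    have hcl : Topology.IsClosedEmbedding (Subtype.val : V → EE m) :=
      (Submodule.closed_of_finiteDimensional V).isClosedEmbedding_subtypeVal
    exact hcl.isCompact_preimage hYc
  have : (μH[(finrank ℝ V : ℝ)] : Measure V) ((Subtype.val : V → EE m) ⁻¹' Y) < ∞ := h9.measure_lt_top
  rwa [hfr] at this

/-- sets in an affine subspace of codimension two have zero area -/
theorem null_area (X : Set (EE m)) (W : Submodule ℝ (EE m)) (hW : finrank ℝ W < m) (p : EE m)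
    (hX : ∀ x ∈ X, x - p ∈ W) : μH[(m : ℝ)] X = 0 := by
  rw [← mu_sub p X]
  set Y := (fun x => x - p) '' X with hY
  have hY0 : ∀ y ∈ Y, y ∈ W := by
    rintro _ ⟨x, hx, rfl⟩
    exact hX x hx
  have h8 : Y = Subtype.val '' ((Subtype.val : W → EE m) ⁻¹' Y) := by
    rw [image_preimage_eq_inter_range, eq_comm, inter_eq_left]
    intro y hy
    exact ⟨⟨y, hY0 y hy⟩, rfl⟩
  have hiso : μH[(m : ℝ)] (Subtype.val '' ((Subtype.val : W → EE m) ⁻¹' Y)) =
      μH[(m : ℝ)] ((Subtype.val : W → EE m) ⁻¹' Y) :=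
    (isometry_subtype_coe (s := (W : Set (EE m)))).hausdorffMeasure_image (Or.inl (by positivity)) _
  rw [h8, hiso]
  have h9 : (μH[(m : ℝ)] : Measure W) = 0 := Real.hausdorffMeasure_of_finrank_lt (by exact_mod_cast hW)
  have h10 : (μH[(m : ℝ)] : Measure W) ((Subtype.val : W → EE m) ⁻¹' Y) = 0 := by rw [h9]; rfl
  exact h10

theorem Fc_compact : IsCompact (Fc m) := by
  apply Metric.isCompact_of_isClosed_isBounded Fc_closed
  rw [isBounded_iff_forall_norm_le]
  refine ⟨1, fun x hx => ?_⟩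
  refine (norm_le_sum x).trans ?_
  rw [← hx.2]
  exact le_of_eq (Finset.sum_congr rfl fun i _ => abs_of_nonneg (hx.1 i))

theorem Fc_fin : μH[(m : ℝ)] (Fc m) < ∞ := by
  have hn : 0 < ‖one m‖ := norm_pos_iff.mpr one_ne
  apply finite_area (Fc m) Fc_compact (‖one m‖⁻¹ • one m)
    (by rw [norm_smul, norm_inv, norm_norm, inv_mul_cancel₀ hn.ne']) (‖one m‖⁻¹)
  intro x hx
  rw [real_inner_smul_left, one_inner, hx.2, mul_one]

theorem Fc_null (hm : 1 ≤ m) (i : Fin (m + 1)) : μH[(m : ℝ)] {x ∈ Fc m | x i = 0} = 0 := by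
  have hn : 0 < ‖one m‖ := norm_pos_iff.mpr one_ne
  obtain ⟨j, hj⟩ : ∃ j : Fin (m + 1), j ≠ i := by
    have : Nontrivial (Fin (m + 1)) := Fin.nontrivial_iff_two_le.mpr (by omega)
    exact exists_ne i
  set k : EE m := ‖one m‖⁻¹ • one m with hk
  have hkn : ‖k‖ = 1 := by rw [hk, norm_smul, norm_inv, norm_norm, inv_mul_cancel₀ hn.ne']
  set V := (ℝ ∙ k)ᗮ with hV
  have hVm : ∀ x, x ∈ V ↔ ∑ l, x l = 0 := by
    intro x
    rw [hV, mem_hyp, hk, real_inner_smul_left, one_inner]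
    constructor
    · intro h
      rcases mul_eq_zero.mp h with h | h
      · exact absurd h (inv_ne_zero hn.ne')
      · exact h
    · intro h; rw [h, mul_zero]
  set W : Submodule ℝ (EE m) := V ⊓ (ℝ ∙ (ee i : EE m))ᗮ with hW
  have hWm : ∀ x, x ∈ W ↔ (∑ l, x l = 0) ∧ x i = 0 := by
    intro x
    rw [hW, Submodule.mem_inf, hVm, mem_hyp, ee_inner]
  have hlt : finrank ℝ W < m := by
    have h1 : finrank ℝ V = m := finrank_hyp k hkn
    refine lt_of_lt_of_eq (Submodule.finrank_lt_finrank_of_lt ?_) h1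
    refine lt_of_le_of_ne inf_le_left ?_
    intro heq
    have h2 : (ee i - ee j : EE m) ∈ V := by
      rw [hVm]
      simp [ee_apply, Finset.sum_sub_distrib]
    rw [← heq, hWm] at h2
    have h3 := h2.2
    simp [ee_apply, hj.symm] at h3
  apply null_area _ W hlt (ee j)
  rintro x ⟨hx, hx0⟩
  rw [hWm]
  constructor
  · have := hx.2
    simp [ee_apply, Finset.sum_sub_distrib, this]
  · simp [ee_apply, hx0, hj.symm]

theorem Fc_eq_Fo (hm : 1 ≤ m) : μH[(m : ℝ)] (Fc m) = μH[(m : ℝ)] (Fo m) := by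
  apply le_antisymm
  · have h1 : Fc m ⊆ Fo m ∪ ⋃ i, {x ∈ Fc m | x i = 0} := by
      intro x hx
      by_cases h : ∀ i, 0 < x i
      · exact Or.inl ⟨h, hx.2⟩
      · push Not at h
        obtain ⟨i, hi⟩ := h
        right
        rw [mem_iUnion]
        exact ⟨i, hx, le_antisymm hi (hx.1 i)⟩
    calc μH[(m : ℝ)] (Fc m) ≤ μH[(m : ℝ)] (Fo m ∪ ⋃ i, {x ∈ Fc m | x i = 0}) := measure_mono h1
      _ ≤ μH[(m : ℝ)] (Fo m) + μH[(m : ℝ)] (⋃ i, {x ∈ Fc m | x i = 0}) := measure_union_le _ _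
      _ = μH[(m : ℝ)] (Fo m) := by
        rw [measure_iUnion_null (fun i => Fc_null hm i), add_zero]
  · apply measure_mono
    intro x hx
    exact ⟨fun i => (hx.1 i).le, hx.2⟩

end Pool.Agent.H490R3.ASA
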