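import Mathlib
import Pool.Agent.H490R3.ASA.Pieces
import Pool.Agent.H490R3.ASA.Key

set_option autoImplicit false

open Set MeasureTheory Measure Module
open scoped ENNReal RealInnerProductSpace Pointwise

namespace Pool.Agent.H490R3.ASA

variable {m : ℕ}

/-- corners of a facet -/
def Kc (i : Fin (m + 1)) (α s : ℝ) : Set (EE m) :=
  {x | (∀ j, 0 ≤ x j) ∧ ∑ j, x j = α ∧ α - s < x i}

theorem Kc_meas (i : Fin (m + 1)) (α s : ℝ) : MeasurableSet (Kc i α s) := by
  have : Kc i α s = ((⋂ i, {x : EE m | 0 ≤ x i}) ∩ {x | ∑ i, x i = α}) ∩ {x : EE m | α - s < x i} := by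
    ext x; simp [Kc, and_assoc]
  rw [this]
  exact ((isClosed_iInter fun i => isClosed_le continuous_const (contc i)).inter
    (isClosed_eq (by fun_prop) continuous_const)).measurableSet.inter
    (isOpen_lt continuous_const (contc i)).measurableSet

theorem Kc_ge (i : Fin (m + 1)) {α s : ℝ} (hs : 0 < s) (hα : 2 * s ≤ α) :
    ENNReal.ofReal (s ^ m) * μH[(m : ℝ)] (Fo m) ≤ μH[(m : ℝ)] (Kc i α s) := by
  rw [← mu_smul hs, ← mu_sub (-((α - s) • ee i)) (s • Fo m)]
  apply measure_mono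
  rintro _ ⟨_, ⟨y, hy, rfl⟩, rfl⟩
  have hsum := hy.2
  refine ⟨?_, ?_, ?_⟩
  · intro j
    simp only [sub_neg_eq_add, PiLp.add_apply, PiLp.smul_apply, smul_eq_mul, ee_apply]
    have := mul_pos hs (hy.1 j)
    split_ifs <;> linarith
  · simp only [sub_neg_eq_add, PiLp.add_apply, PiLp.smul_apply, smul_eq_mul, ee_apply,
      Finset.sum_add_distrib, ← Finset.mul_sum, hsum]
    simp
  · simp only [sub_neg_eq_add, PiLp.add_apply, PiLp.smul_apply, smul_eq_mul, ee_apply]
    have := mul_pos hs (hy.1 i)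
    simp; linarith [hy.1 i, this, mul_pos hs (hy.1 i)]

theorem G_le {α s : ℝ} (hs : 0 < s) (hα : 2 * s ≤ α) :
    μH[(m : ℝ)] (G m α s) + ((m : ℝ≥0∞) + 1) * (ENNReal.ofReal (s ^ m) * μH[(m : ℝ)] (Fo m)) ≤
      ENNReal.ofReal (α ^ m) * μH[(m : ℝ)] (Fc m) := by
  have hα0 : 0 < α := by linarith
  rw [← mu_smul hα0]
  have hsub : G m α s ∪ ⋃ i, Kc i α s ⊆ α • Fc m := by
    have hmem : ∀ x : EE m, (∀ j, 0 ≤ x j) → ∑ j, x j = α → x ∈ α • Fc m := by
      intro x h1 h2
      refine ⟨α⁻¹ • x, ⟨fun i => ?_, ?_⟩, ?_⟩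
      · simp only [PiLp.smul_apply, smul_eq_mul]
        exact mul_nonneg (by positivity) (h1 i)
      · simp only [PiLp.smul_apply, smul_eq_mul, ← Finset.mul_sum, h2]
        field_simp
      · show α • α⁻¹ • x = x
        rw [smul_smul, mul_inv_cancel₀ hα0.ne', one_smul]
    rintro x (hx | hx)
    · exact hmem x hx.1 hx.2.1
    · rw [mem_iUnion] at hx
      obtain ⟨i, hi⟩ := hx
      exact hmem x hi.1 hi.2.1
  refine le_trans ?_ (measure_mono hsub)
  rw [measure_union ?_ (MeasurableSet.iUnion fun i => Kc_meas i α s),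
    measure_iUnion ?_ (fun i => Kc_meas i α s), tsum_fintype]
  · gcongr
    calc ((m : ℝ≥0∞) + 1) * (ENNReal.ofReal (s ^ m) * μH[(m : ℝ)] (Fo m))
        = ∑ _i : Fin (m + 1), (ENNReal.ofReal (s ^ m) * μH[(m : ℝ)] (Fo m)) := by
          rw [Finset.sum_const, Finset.card_univ, Fintype.card_fin, nsmul_eq_mul]
          push_cast; rfl
      _ ≤ _ := Finset.sum_le_sum fun i _ => Kc_ge i hs hα
  · intro i j hij
    rw [Function.onFun, Set.disjoint_left]
    intro x hi hj
    have h1 : x i + x j ≤ ∑ l, x l := by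
      have := Finset.add_le_sum (s := Finset.univ) (f := fun l => x l) (fun l _ => hi.1 l)
        (Finset.mem_univ i) (Finset.mem_univ j) hij
      exact this
    rw [hi.2.1] at h1
    linarith [hi.2.2, hj.2.2]
  · rw [Set.disjoint_left]
    intro x hx hx2
    rw [mem_iUnion] at hx2
    obtain ⟨i, hi⟩ := hx2
    exact absurd (hx.2.2 i) (not_le.mpr hi.2.2)

/-- shear along the `i`-th axis -/
theorem shear_zero (i : Fin (m + 1)) :
    (innerₛₗ ℝ (one m - ee i) : EE m →ₗ[ℝ] ℝ) (ee i) = 0 := by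
  show ⟪one m - ee i, (ee i : EE m)⟫ = 0
  rw [inner_sub_left, one_inner, ee_inner]
  simp [ee_apply]

noncomputable def T (i : Fin (m + 1)) : EE m ≃ₗ[ℝ] EE m :=
  LinearEquiv.transvection (shear_zero i)

theorem T_apply (i : Fin (m + 1)) (x : EE m) : T i x = x + ((∑ j, x j) - x i) • ee i := by
  have : T i x = x + ⟪one m - ee i, x⟫ • ee i := rfl
  rw [this, inner_sub_left, one_inner, ee_inner]

theorem T_det (i : Fin (m + 1)) : LinearMap.det (T i : EE m →ₗ[ℝ] EE m) = 1 := by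
  have h : (T i : EE m →ₗ[ℝ] EE m) =
      LinearMap.transvection (innerₛₗ ℝ (one m - ee i) : EE m →ₗ[ℝ] ℝ) (ee i) := rfl
  rw [h, LinearMap.transvection.det, shear_zero, add_zero]

theorem Q_le (i : Fin (m + 1)) {α s : ℝ} (hs : 0 < s) :
    μH[(m : ℝ)] (Q i α s) ≤
      ENNReal.ofReal (1 / ‖one m‖) * (ENNReal.ofReal (s ^ m) * μH[(m : ℝ)] (Fc m)) := by
  have hmeas : MeasurableSet (s • Fc m) := (Fc_closed.smul₀ s).measurableSet
  have hJ := areaJ (T i) (one m) (ee i) one_ne (fun x => by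
    rw [ee_inner, one_inner, T_apply]
    simp [ee_apply]) (s • Fc m) hmeas s (by
      rintro _ ⟨y, hy, rfl⟩
      show ⟪one m, s • y⟫ = s
      rw [inner_smul_right, one_inner, hy.2, mul_one])
  rw [T_det, abs_one, one_mul, ee_norm, mu_smul hs] at hJ
  rw [← hJ, ← mu_sub (-((α - s - s) • ee i)) (T i '' (s • Fc m))]
  apply measure_mono
  intro x hx
  have hxi := hx.2.1
  refine ⟨T i (x + (α - (∑ j, x j) - x i) • ee i), ⟨x + (α - (∑ j, x j) - x i) • ee i, ?_, rfl⟩, ?_⟩
  · refine ⟨s⁻¹ • (x + (α - (∑ j, x j) - x i) • ee i), ⟨fun j => ?_, ?_⟩, ?_⟩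
    · simp only [PiLp.add_apply, PiLp.smul_apply, smul_eq_mul, ee_apply]
      apply mul_nonneg (by positivity)
      split_ifs with h
      · rw [h]; linarith [hx.2.2]
      · linarith [hx.1 j]
    · simp only [PiLp.add_apply, PiLp.smul_apply, smul_eq_mul, ee_apply, ← Finset.mul_sum,
        Finset.sum_add_distrib]
      simp
      rw [hxi]
      field_simp
      ring
    · show s • s⁻¹ • _ = _
      rw [smul_smul, mul_inv_cancel₀ hs.ne', one_smul]
  · ext j
    simp only [T_apply, sub_neg_eq_add, PiLp.add_apply, PiLp.smul_apply, smul_eq_mul, ee_apply,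
      Finset.sum_add_distrib, ← Finset.mul_sum]
    simp
    split_ifs with h
    · rw [h, hxi]; ring
    · ring

/-- area of the image of a piece of a facet with normal `σ` -/
theorem facet_area (A : EE m ≃ₗ[ℝ] EE m) (b : Fin (m + 1) → EE m) (hb : ∀ i x, ⟪b i, A x⟫ = x i)
    (σ : Fin (m + 1) → ℤˣ) (X : Set (EE m)) (hX : MeasurableSet X) (c : ℝ)
    (hc : ∀ x ∈ X, ∑ i, x i = c) :
    μH[(m : ℝ)] (A '' (D σ '' X)) =
      ENNReal.ofReal (|LinearMap.det (A : EE m →ₗ[ℝ] EE m)| * (‖S b σ‖ / ‖one m‖)) * μH[(m : ℝ)] X := by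
  have hXm : MeasurableSet (D σ '' X) := by
    have : (D σ : EE m → EE m) = ((D σ).toHomeomorph : EE m → EE m) := rfl
    rw [this, Homeomorph.image_eq_preimage_symm]
    exact (D σ).toHomeomorph.symm.continuous.measurable hX
  have h1 := areaJ A (D σ (one m)) (S b σ) (by
      intro h; exact one_ne ((D σ).map_eq_zero_iff.mp h)) (fun x => by
      unfold S
      rw [sum_inner, PiLp.inner_apply]
      apply Finset.sum_congr rfl
      intro i _
      rw [real_inner_smul_left, hb, D_apply]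
      simp [one, mul_comm]) (D σ '' X) hXm c (by
      rintro _ ⟨x, hx, rfl⟩
      rw [(D σ).inner_map_map, one_inner, hc x hx])
  rw [h1, (D σ).norm_map]
  congr 1
  exact (D σ).toIsometryEquiv.hausdorffMeasure_image _ _

theorem side_area (A : EE m ≃ₗ[ℝ] EE m) (b : Fin (m + 1) → EE m) (hb : ∀ i x, ⟪b i, A x⟫ = x i)
    (σ : Fin (m + 1) → ℤˣ) (i : Fin (m + 1)) (α s : ℝ) :
    μH[(m : ℝ)] (A '' (D σ '' (Q i α s))) =
      ENNReal.ofReal (|LinearMap.det (A : EE m →ₗ[ℝ] EE m)| * ‖b i‖) * μH[(m : ℝ)] (Q i α s) := by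
  have hX := (Q_closed i α s).measurableSet
  have hXm : MeasurableSet (D σ '' (Q i α s)) := by
    have : (D σ : EE m → EE m) = ((D σ).toHomeomorph : EE m → EE m) := rfl
    rw [this, Homeomorph.image_eq_preimage_symm]
    exact (D σ).toHomeomorph.symm.continuous.measurable hX
  have h1 := areaJ A (ee i) (b i) (by
      intro h; have := ee_norm i; rw [h, norm_zero] at this; exact zero_ne_one this) (fun x => by
      rw [hb, ee_inner]) (D σ '' (Q i α s)) hXm (((σ i : ℤ) : ℝ) * (α - s)) (by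
      rintro _ ⟨x, hx, rfl⟩
      rw [ee_inner, D_apply, hx.2.1])
  rw [h1, ee_norm, div_one]
  congr 1
  exact (D σ).toIsometryEquiv.hausdorffMeasure_image _ _

end Pool.Agent.H490R3.ASA
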