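import Mathlib
import Pool.Agent.H490R3.ASA.Pieces2

set_option autoImplicit false

open Set MeasureTheory Measure Module
open scoped ENNReal RealInnerProductSpace Pointwise

namespace Pool.Agent.H490R3.ASA

variable {m : ℕ}

/-- cross-polytope of size `r` -/
def cross (m : ℕ) (r : ℝ) : Set (EE m) := {x | ∑ i, |x i| ≤ r}
/-- truncated cross-polytope -/
def trunc (m : ℕ) (α s : ℝ) : Set (EE m) := {x | ∑ i, |x i| ≤ α ∧ ∀ i, |x i| ≤ α - s}

theorem cross_closed (r : ℝ) : IsClosed (cross m r) :=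
  isClosed_le (by fun_prop) continuous_const

theorem trunc_eq (α s : ℝ) : trunc m α s = cross m α ∩ ⋂ i, {x : EE m | |x i| ≤ α - s} := by
  ext x; simp [trunc, cross]

theorem trunc_closed (α s : ℝ) : IsClosed (trunc m α s) := by
  rw [trunc_eq]
  exact (cross_closed α).inter (isClosed_iInter fun i => isClosed_le (by fun_prop) continuous_const)

theorem cross_bdd (r : ℝ) : Bornology.IsBounded (cross m r) := by
  rw [isBounded_iff_forall_norm_le]
  exact ⟨r, fun x hx => (norm_le_sum x).trans hx⟩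

theorem cross_compact (r : ℝ) : IsCompact (cross m r) :=
  Metric.isCompact_of_isClosed_isBounded (cross_closed r) (cross_bdd r)

theorem trunc_compact (α s : ℝ) : IsCompact (trunc m α s) :=
  (cross_compact α).of_isClosed_subset (trunc_closed α s) (fun _ hx => hx.1)

theorem cross_convex (r : ℝ) : Convex ℝ (cross m r) := by
  intro x hx y hy a b ha hb hab
  have hx' : ∑ i, |x i| ≤ r := hx
  have hy' : ∑ i, |y i| ≤ r := hy
  show ∑ i, |(a • x + b • y) i| ≤ r
  calc ∑ i, |(a • x + b • y) i| ≤ ∑ i, (a * |x i| + b * |y i|) := by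
        apply Finset.sum_le_sum
        intro i _
        have : (a • x + b • y) i = a * x i + b * y i := rfl
        rw [this]
        refine (abs_add_le _ _).trans (le_of_eq ?_)
        rw [abs_mul, abs_mul, abs_of_nonneg ha, abs_of_nonneg hb]
    _ = a * ∑ i, |x i| + b * ∑ i, |y i| := by
        rw [Finset.sum_add_distrib, Finset.mul_sum, Finset.mul_sum]
    _ ≤ a * r + b * r := by gcongr
    _ = r := by rw [← add_mul, hab, one_mul]

theorem trunc_convex (α s : ℝ) : Convex ℝ (trunc m α s) := by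
  rw [trunc_eq]
  refine (cross_convex α).inter (convex_iInter fun i => ?_)
  intro x hx y hy a b ha hb hab
  have hx' : |x i| ≤ α - s := hx
  have hy' : |y i| ≤ α - s := hy
  show |a * x i + b * y i| ≤ α - s
  calc |a * x i + b * y i| ≤ a * |x i| + b * |y i| := by
        refine (abs_add_le _ _).trans (le_of_eq ?_)
        rw [abs_mul, abs_mul, abs_of_nonneg ha, abs_of_nonneg hb]
    _ ≤ a * (α - s) + b * (α - s) := by gcongr
    _ = α - s := by rw [← add_mul, hab, one_mul]

theorem interior_trunc {α s : ℝ} {x : EE m} (h1 : ∑ i, |x i| < α) (h2 : ∀ i, |x i| < α - s) :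
    x ∈ interior (trunc m α s) := by
  rw [mem_interior]
  refine ⟨{x | ∑ i, |x i| < α} ∩ ⋂ i, {x : EE m | |x i| < α - s}, ?_, ?_, ?_⟩
  · intro y hy
    refine ⟨le_of_lt hy.1, fun i => ?_⟩
    have := mem_iInter.mp hy.2 i
    exact le_of_lt this
  · refine IsOpen.inter (isOpen_lt (by fun_prop) continuous_const) ?_
    exact isOpen_iInter_of_finite fun i => isOpen_lt (by fun_prop) continuous_const
  · exact ⟨h1, mem_iInter.mpr h2⟩

/-- sign vector of a point -/
noncomputable def sgn (x : EE m) (i : Fin (m + 1)) : ℤˣ := if 0 ≤ x i then 1 else -1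

theorem D_sgn (x : EE m) (i : Fin (m + 1)) : D (sgn x) x i = |x i| := by
  rw [D_apply]
  unfold sgn
  split_ifs with h
  · rw [abs_of_nonneg h]; simp
  · rw [abs_of_neg (not_le.mp h)]; simp

theorem D_D (σ : Fin (m + 1) → ℤˣ) (x : EE m) : D σ (D σ x) = x := by
  ext i
  rw [D_apply, D_apply]
  rcases Int.units_eq_one_or (σ i) with h | h <;> simp [h]

theorem frontier_trunc (α s : ℝ) : frontier (trunc m α s) ⊆
    (⋃ σ, D σ '' G m α s) ∪ ⋃ i, ⋃ σ, D σ '' Q i α s := by
  intro x hx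
  have hxC : x ∈ trunc m α s := (trunc_closed α s).frontier_subset hx
  have hxI : x ∉ interior (trunc m α s) := hx.2
  have hD : x = D (sgn x) (D (sgn x) x) := (D_D _ _).symm
  by_cases h1 : ∑ i, |x i| < α
  · have h2 : ¬ ∀ i, |x i| < α - s := fun h2 => hxI (interior_trunc h1 h2)
    push Not at h2
    obtain ⟨i, hi⟩ := h2
    right
    rw [mem_iUnion]
    refine ⟨i, ?_⟩
    rw [mem_iUnion]
    refine ⟨sgn x, D (sgn x) x, ⟨fun j => ?_, ?_, ?_⟩, hD.symm⟩
    · rw [D_sgn]; exact abs_nonneg _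
    · rw [D_sgn]; exact le_antisymm (hxC.2 i) hi
    · simp only [D_sgn]; exact hxC.1
  · left
    rw [mem_iUnion]
    refine ⟨sgn x, D (sgn x) x, ⟨fun j => ?_, ?_, fun j => ?_⟩, hD.symm⟩
    · rw [D_sgn]; exact abs_nonneg _
    · simp only [D_sgn]; exact le_antisymm hxC.1 (not_lt.mp h1)
    · rw [D_sgn]; exact hxC.2 j

theorem abs_D (σ : Fin (m + 1) → ℤˣ) (x : EE m) (i : Fin (m + 1)) : |D σ x i| = |x i| := by
  rw [D_apply]
  rcases Int.units_eq_one_or (σ i) with h | h <;> simp [h]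

theorem Fo_frontier (σ : Fin (m + 1) → ℤˣ) : D σ '' Fo m ⊆ frontier (cross m 1) := by
  rintro _ ⟨y, hy, rfl⟩
  have hsum : ∑ i, |D σ y i| = 1 := by
    simp only [abs_D]
    rw [← hy.2]
    exact Finset.sum_congr rfl fun i _ => abs_of_pos (hy.1 i)
  have hmem : D σ y ∈ cross m 1 := hsum.le
  refine ⟨subset_closure hmem, ?_⟩
  intro hint
  have hcont : Filter.Tendsto (fun t : ℝ => t • D σ y) (nhds 1) (nhds (D σ y)) := by
    have : Continuous (fun t : ℝ => t • D σ y) := by fun_prop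
    have h := this.tendsto 1
    simpa using h
  have hev := hcont.eventually (isOpen_interior.mem_nhds hint)
  have hev2 : ∀ᶠ t : ℝ in nhdsWithin 1 (Ioi 1), t • D σ y ∈ interior (cross m 1) :=
    hev.filter_mono nhdsWithin_le_nhds
  obtain ⟨t, ht1, ht2⟩ := (hev2.and self_mem_nhdsWithin).exists
  have ht3' : t • D σ y ∈ cross m 1 := interior_subset ht1
  have ht3 : ∑ i, |(t • D σ y) i| ≤ 1 := ht3'
  have ht4 : ∑ i, |(t • D σ y) i| = t := by
    have : ∀ i, |(t • D σ y) i| = t * |D σ y i| := fun i => by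
      have h0 : (t • D σ y) i = t * D σ y i := rfl
      rw [h0, abs_mul, abs_of_pos (lt_trans one_pos ht2)]
    simp only [this]
    rw [← Finset.mul_sum, hsum, mul_one]
  rw [ht4] at ht3
  exact absurd ht3 (not_le.mpr ht2)

theorem Fo_disj {σ τ : Fin (m + 1) → ℤˣ} (h : σ ≠ τ) : Disjoint (D σ '' Fo m) (D τ '' Fo m) := by
  rw [Set.disjoint_left]
  rintro _ ⟨x, hx, rfl⟩ ⟨y, hy, hxy⟩
  apply h
  funext i
  have h1 : D τ y i = D σ x i := by rw [hxy]
  rw [D_apply, D_apply] at h1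
  have hx0 := hx.1 i
  have hy0 := hy.1 i
  rcases Int.units_eq_one_or (σ i) with h | h <;> rcases Int.units_eq_one_or (τ i) with h' | h' <;>
    rw [h, h'] at h1 ⊢ <;> simp at h1 <;> linarith

theorem image_meas (A : EE m ≃ₗ[ℝ] EE m) {X : Set (EE m)} (hX : MeasurableSet X) :
    MeasurableSet (A '' X) := by
  have : (A : EE m → EE m) = (A.toContinuousLinearEquiv.toHomeomorph : EE m → EE m) := rfl
  rw [this, Homeomorph.image_eq_preimage_symm]
  exact A.toContinuousLinearEquiv.toHomeomorph.symm.continuous.measurable hX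

/-- The area comparison. -/
theorem compare (k : ℕ) {α s : ℝ} (hs : 0 < s) (hα : 2 * s ≤ α)
    (hpow : α ^ (k + 2) = 1 + ((k : ℝ) + 3) / 3 * s ^ (k + 2))
    (hc : 0 ≤ α ^ (k + 2) - ((k : ℝ) + 3) * s ^ (k + 2)) (A : EE (k + 2) ≃ₗ[ℝ] EE (k + 2)) :
    μH[((k + 2 : ℕ) : ℝ)] (A '' frontier (trunc (k + 2) α s)) ≤
      μH[((k + 2 : ℕ) : ℝ)] (A '' frontier (cross (k + 2) 1)) := by
  set b : Fin (k + 2 + 1) → EE (k + 2) :=
    fun i => LinearMap.adjoint (A.symm : EE (k + 2) →ₗ[ℝ] EE (k + 2)) (ee i) with hbdef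
  have hb : ∀ i x, ⟪b i, A x⟫ = x i := by
    intro i x
    rw [hbdef]
    simp only
    rw [LinearMap.adjoint_inner_left]
    rw [ee_inner]
    simp
  set a : ℝ := |LinearMap.det (A : EE (k + 2) →ₗ[ℝ] EE (k + 2))| with ha
  have ha0 : 0 ≤ a := abs_nonneg _
  set w : ℝ := ‖one (k + 2)‖ with hw
  have hw0 : 0 < w := norm_pos_iff.mpr one_ne
  set M := μH[((k + 2 : ℕ) : ℝ)] (Fc (k + 2)) with hM
  have hMt : M ≠ ∞ := Fc_fin.ne
  have hMo : μH[((k + 2 : ℕ) : ℝ)] (Fo (k + 2)) = M := (Fc_eq_Fo (by omega)).symm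
  set r : ℝ := M.toReal with hr
  have hMr : M = ENNReal.ofReal r := (ENNReal.ofReal_toReal hMt).symm
  have hr0 : 0 ≤ r := ENNReal.toReal_nonneg
  -- the pieces
  have hG : μH[((k + 2 : ℕ) : ℝ)] (G (k + 2) α s) ≤
      ENNReal.ofReal ((α ^ (k + 2) - ((k : ℝ) + 3) * s ^ (k + 2)) * r) := by
    have h1 := G_le (m := k + 2) hs hα
    rw [hMo, ← hM, hMr, ← ENNReal.ofReal_mul (by positivity),
      ← ENNReal.ofReal_mul (pow_nonneg (by linarith) _)] at h1
    have h2 : (((k + 2 : ℕ) : ℝ≥0∞) + 1) * ENNReal.ofReal (s ^ (k + 2) * r) =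
        ENNReal.ofReal (((k : ℝ) + 3) * (s ^ (k + 2) * r)) := by
      rw [ENNReal.ofReal_mul (p := (k : ℝ) + 3) (by positivity)]
      congr 1
      rw [show (k : ℝ) + 3 = ((k + 3 : ℕ) : ℝ) by push_cast; ring, ENNReal.ofReal_natCast]
      push_cast; ring
    rw [h2] at h1
    have h3 := ENNReal.le_sub_of_add_le_right ENNReal.ofReal_ne_top h1
    rw [← ENNReal.ofReal_sub _ (by positivity)] at h3
    refine h3.trans (le_of_eq ?_)
    congr 1
    ring
  have hQ : ∀ i : Fin (k + 2 + 1), μH[((k + 2 : ℕ) : ℝ)] (Q i α s) ≤ ENNReal.ofReal (1 / w * (s ^ (k + 2) * r)) := by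
    intro i
    refine (Q_le i (α := α) hs).trans (le_of_eq ?_)
    rw [← hM, hMr, ← ENNReal.ofReal_mul (by positivity), ← ENNReal.ofReal_mul (by positivity)]
  -- upper bound
  have hup : μH[((k + 2 : ℕ) : ℝ)] (A '' frontier (trunc (k + 2) α s)) ≤
      (∑ σ, ENNReal.ofReal (a * (‖S b σ‖ / w)) *
        ENNReal.ofReal ((α ^ (k + 2) - ((k : ℝ) + 3) * s ^ (k + 2)) * r)) +
      ∑ i, ∑ _σ : Fin (k + 2 + 1) → ℤˣ, ENNReal.ofReal (a * ‖b i‖) *
        ENNReal.ofReal (1 / w * (s ^ (k + 2) * r)) := by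
    calc μH[((k + 2 : ℕ) : ℝ)] (A '' frontier (trunc (k + 2) α s))
        ≤ μH[((k + 2 : ℕ) : ℝ)] ((⋃ σ, A '' (D σ '' G (k + 2) α s)) ∪
            ⋃ i, ⋃ σ, A '' (D σ '' Q i α s)) := by
          apply measure_mono
          refine (image_mono (frontier_trunc α s)).trans ?_
          rw [image_union, image_iUnion, image_iUnion]
          simp only [image_iUnion]
          exact le_rfl
      _ ≤ μH[((k + 2 : ℕ) : ℝ)] (⋃ σ, A '' (D σ '' G (k + 2) α s)) +
            μH[((k + 2 : ℕ) : ℝ)] (⋃ i, ⋃ σ, A '' (D σ '' Q i α s)) := measure_union_le _ _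
      _ ≤ (∑ σ, μH[((k + 2 : ℕ) : ℝ)] (A '' (D σ '' G (k + 2) α s))) +
            ∑ i, ∑ σ, μH[((k + 2 : ℕ) : ℝ)] (A '' (D σ '' Q i α s)) := by
          gcongr
          · exact measure_iUnion_fintype_le _ _
          · exact (measure_iUnion_fintype_le _ _).trans
              (Finset.sum_le_sum fun i _ => measure_iUnion_fintype_le _ _)
      _ ≤ _ := by
          gcongr with σ _ i _ σ _
          · rw [facet_area A b hb σ _ (G_closed α s).measurableSet α (fun x hx => hx.2.1)]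
            gcongr
          · rw [side_area A b hb σ i α s]
            gcongr
            exact hQ i
  -- lower bound
  have hlow : ∑ σ, ENNReal.ofReal (a * (‖S b σ‖ / w)) * ENNReal.ofReal r ≤
      μH[((k + 2 : ℕ) : ℝ)] (A '' frontier (cross (k + 2) 1)) := by
    calc ∑ σ, ENNReal.ofReal (a * (‖S b σ‖ / w)) * ENNReal.ofReal r
        = ∑ σ, μH[((k + 2 : ℕ) : ℝ)] (A '' (D σ '' Fo (k + 2))) := by
          apply Finset.sum_congr rfl
          intro σ _
          rw [facet_area A b hb σ _ Fo_meas 1 (fun x hx => hx.2), hMo, hMr]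
      _ = μH[((k + 2 : ℕ) : ℝ)] (⋃ σ, A '' (D σ '' Fo (k + 2))) := by
          rw [measure_iUnion, tsum_fintype]
          · intro σ τ hστ
            exact (disjoint_image_iff A.injective).mpr (Fo_disj hστ)
          · intro σ
            apply image_meas
            have : (D σ : EE (k + 2) → EE (k + 2)) = ((D σ).toHomeomorph : EE (k + 2) → EE (k + 2)) := rfl
            rw [this, Homeomorph.image_eq_preimage_symm]
            exact (D σ).toHomeomorph.symm.continuous.measurable Fo_meas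
      _ ≤ _ := by
          apply measure_mono
          apply iUnion_subset
          intro σ
          exact image_mono (Fo_frontier σ)
  refine hup.trans (le_trans ?_ hlow)
  have e1 : ∀ σ : Fin (k + 2 + 1) → ℤˣ, ENNReal.ofReal (a * (‖S b σ‖ / w)) *
      ENNReal.ofReal ((α ^ (k + 2) - ((k : ℝ) + 3) * s ^ (k + 2)) * r) =
      ENNReal.ofReal (a * r / w * ((α ^ (k + 2) - ((k : ℝ) + 3) * s ^ (k + 2)) * ‖S b σ‖)) := by
    intro σ
    rw [← ENNReal.ofReal_mul (by positivity)]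
    congr 1; ring
  have e2 : ∀ i, ENNReal.ofReal (a * ‖b i‖) * ENNReal.ofReal (1 / w * (s ^ (k + 2) * r)) =
      ENNReal.ofReal (a * r / w * (s ^ (k + 2) * ‖b i‖)) := by
    intro i
    rw [← ENNReal.ofReal_mul (by positivity)]
    congr 1; ring
  have e3 : ∀ σ : Fin (k + 2 + 1) → ℤˣ, ENNReal.ofReal (a * (‖S b σ‖ / w)) * ENNReal.ofReal r =
      ENNReal.ofReal (a * r / w * ‖S b σ‖) := by
    intro σ
    rw [← ENNReal.ofReal_mul (by positivity)]
    congr 1; ring
  simp only [e1, e2, e3]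
  rw [← ENNReal.ofReal_sum_of_nonneg (fun σ _ => by positivity),
    ← ENNReal.ofReal_sum_of_nonneg (fun σ _ => by positivity)]
  have e4 : ∀ i : Fin (k + 2 + 1), ∑ _σ : Fin (k + 2 + 1) → ℤˣ,
      ENNReal.ofReal (a * r / w * (s ^ (k + 2) * ‖b i‖)) =
      ENNReal.ofReal (a * r / w * (2 ^ (k + 3) * s ^ (k + 2) * ‖b i‖)) := by
    intro i
    rw [Finset.sum_const, Finset.card_univ]
    have hcard : Fintype.card (Fin (k + 2 + 1) → ℤˣ) = 2 ^ (k + 3) := by
      rw [Fintype.card_fun]; simp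
    rw [hcard, nsmul_eq_mul]
    have : ((2 ^ (k + 3) : ℕ) : ℝ≥0∞) = ENNReal.ofReal (2 ^ (k + 3)) := by
      rw [ENNReal.ofReal_pow (by norm_num)]; simp
    rw [this, ← ENNReal.ofReal_mul (by positivity)]
    congr 1; ring
  simp only [e4]
  rw [← ENNReal.ofReal_sum_of_nonneg (fun σ _ => by positivity),
    ← ENNReal.ofReal_add (Finset.sum_nonneg fun σ _ => by positivity)
      (Finset.sum_nonneg fun σ _ => by positivity)]
  apply ENNReal.ofReal_le_ofReal
  simp only [← Finset.mul_sum]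
  rw [← mul_add]
  apply mul_le_mul_of_nonneg_left _ (by positivity)
  have hkey := key k b
  have hs2 : 0 ≤ s ^ (k + 2) := by positivity
  have h5 := mul_le_mul_of_nonneg_left hkey hs2
  rw [hpow]
  nlinarith [h5]

end Pool.Agent.H490R3.ASA
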