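import Mathlib
import Pool.Agent.H490R3.ASA.Main

set_option autoImplicit false

open Set MeasureTheory Measure Module
open scoped ENNReal RealInnerProductSpace Pointwise

namespace Pool.Agent.H490R3.ASA

variable {m : ℕ}

theorem cross_smul {r : ℝ} (hr : 0 < r) : cross m r = r • cross m 1 := by
  ext x
  constructor
  · intro hx
    have hx' : ∑ i, |x i| ≤ r := hx
    refine ⟨r⁻¹ • x, ?_, ?_⟩
    · show ∑ i, |(r⁻¹ • x) i| ≤ 1
      have : ∀ i, |(r⁻¹ • x) i| = r⁻¹ * |x i| := fun i => by
        have h0 : (r⁻¹ • x) i = r⁻¹ * x i := rfl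
        rw [h0, abs_mul, abs_of_pos (inv_pos.mpr hr)]
      simp only [this]
      rw [← Finset.mul_sum, ← div_eq_inv_mul, div_le_one hr]
      exact hx'
    · show r • r⁻¹ • x = x
      rw [smul_smul, mul_inv_cancel₀ hr.ne', one_smul]
  · rintro ⟨y, hy, rfl⟩
    have hy' : ∑ i, |y i| ≤ 1 := hy
    show ∑ i, |(r • y) i| ≤ r
    have : ∀ i, |(r • y) i| = r * |y i| := fun i => by
      have h0 : (r • y) i = r * y i := rfl
      rw [h0, abs_mul, abs_of_pos hr]
    simp only [this]
    rw [← Finset.mul_sum]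
    calc r * ∑ i, |y i| ≤ r * 1 := by gcongr
      _ = r := mul_one r

theorem vol_cross {r : ℝ} (hr : 0 < r) :
    volume (cross m r) = ENNReal.ofReal (r ^ (m + 1)) * volume (cross m 1) := by
  rw [cross_smul hr, Measure.addHaar_smul]
  congr 2
  rw [finrank_euclideanSpace, Fintype.card_fin, abs_of_pos (pow_pos hr _)]

theorem interior_cross {r : ℝ} {x : EE m} (h1 : ∑ i, |x i| < r) : x ∈ interior (cross m r) := by
  rw [mem_interior]
  refine ⟨{x | ∑ i, |x i| < r}, fun y (hy : ∑ i, |y i| < r) => (show ∑ i, |y i| ≤ r from hy.le), isOpen_lt (by fun_prop) continuous_const, h1⟩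

theorem vol_pos : 0 < volume (cross m 1) :=
  (isOpen_interior.measure_pos volume ⟨0, interior_cross (by simp)⟩).trans_le
    (measure_mono interior_subset)

theorem vol_fin : volume (cross m 1) < ∞ := (cross_compact 1).measure_lt_top

theorem sum_shift (x : EE m) (i : Fin (m + 1)) (t : ℝ) :
    ∑ j, |(x - t • ee i) j| = ∑ j, |x j| - |x i| + |x i - t| := by
  rw [← Finset.add_sum_erase Finset.univ (fun j => |(x - t • ee i) j|) (Finset.mem_univ i),
    ← Finset.add_sum_erase Finset.univ (fun j => |x j|) (Finset.mem_univ i)]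
  have h1 : (x - t • ee i) i = x i - t := by
    simp [ee_apply]
  have h2 : ∑ j ∈ Finset.univ.erase i, |(x - t • ee i) j| = ∑ j ∈ Finset.univ.erase i, |x j| := by
    apply Finset.sum_congr rfl
    intro j hj
    have : j ≠ i := (Finset.mem_erase.mp hj).1
    simp [ee_apply, this]
  rw [h1, h2]
  ring

/-- caps of a cross-polytope -/
theorem cap_le (i : Fin (m + 1)) {α s : ℝ} (hs : 0 < s) :
    volume {x : EE m | ∑ j, |x j| ≤ α ∧ α - s < |x i|} ≤
      ENNReal.ofReal (s ^ (m + 1)) * volume (cross m 1) := by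
  rw [← vol_cross hs]
  set P : Set (EE m) := {x | x ∈ cross m s ∧ 0 < x i} with hP
  set N : Set (EE m) := {x | x ∈ cross m s ∧ x i < 0} with hN
  have hPm : MeasurableSet P :=
    (cross_closed s).measurableSet.inter (isOpen_lt continuous_const (contc i)).measurableSet
  have hNm : MeasurableSet N :=
    (cross_closed s).measurableSet.inter (isOpen_lt (contc i) continuous_const).measurableSet
  have h1 : {x : EE m | ∑ j, |x j| ≤ α ∧ α - s < |x i|} ⊆
      (fun x => (α - s) • ee i + x) '' P ∪ (fun x => (-(α - s)) • ee i + x) '' N := by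
    rintro x ⟨hx1, hx2⟩
    rcases le_or_gt 0 (x i) with h | h
    · left
      rw [abs_of_nonneg h] at hx2
      refine ⟨x - (α - s) • ee i, ⟨?_, ?_⟩, by simp⟩
      · show ∑ j, |(x - (α - s) • ee i) j| ≤ s
        rw [sum_shift, abs_of_nonneg h, abs_of_pos (by linarith : 0 < x i - (α - s))]
        linarith
      · simp [ee_apply]; linarith
    · right
      rw [abs_of_neg h] at hx2
      refine ⟨x - (-(α - s)) • ee i, ⟨?_, ?_⟩, by simp⟩
      · show ∑ j, |(x - (-(α - s)) • ee i) j| ≤ s
        rw [sum_shift, abs_of_neg h, abs_of_neg (by linarith : x i - -(α - s) < 0)]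
        linarith
      · simp [ee_apply]; linarith
  calc volume {x : EE m | ∑ j, |x j| ≤ α ∧ α - s < |x i|}
      ≤ volume ((fun x => (α - s) • ee i + x) '' P ∪ (fun x => (-(α - s)) • ee i + x) '' N) :=
        measure_mono h1
    _ ≤ volume ((fun x => (α - s) • ee i + x) '' P) + volume ((fun x => (-(α - s)) • ee i + x) '' N) :=
        measure_union_le _ _
    _ = volume P + volume N := by
        rw [image_add_left, image_add_left, measure_preimage_add, measure_preimage_add]
    _ = volume (P ∪ N) := by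
        rw [measure_union _ hNm]
        rw [Set.disjoint_left]
        intro x hx1 hx2
        exact absurd hx1.2 (not_lt.mpr hx2.2.le)
    _ ≤ volume (cross m s) := by
        apply measure_mono
        rintro x (hx | hx)
        · exact hx.1
        · exact hx.1

theorem vol_trunc {α s : ℝ} (hs : 0 < s) (hα : s ≤ α)
    (hbig : 1 + ((m : ℝ) + 1) * s ^ (m + 1) < α ^ (m + 1)) :
    volume (cross m 1) < volume (trunc m α s) := by
  have hα0 : 0 < α := by linarith
  by_contra hcon
  push Not at hcon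
  have h1 : cross m α ⊆ trunc m α s ∪ ⋃ i, {x : EE m | ∑ j, |x j| ≤ α ∧ α - s < |x i|} := by
    intro x hx
    by_cases h : ∀ i, |x i| ≤ α - s
    · exact Or.inl ⟨hx, h⟩
    · push Not at h
      obtain ⟨i, hi⟩ := h
      right
      rw [mem_iUnion]
      exact ⟨i, hx, hi⟩
  have h2 : ENNReal.ofReal (α ^ (m + 1)) * volume (cross m 1) ≤
      ENNReal.ofReal (1 + ((m : ℝ) + 1) * s ^ (m + 1)) * volume (cross m 1) := by
    calc ENNReal.ofReal (α ^ (m + 1)) * volume (cross m 1) = volume (cross m α) := (vol_cross hα0).symm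
      _ ≤ volume (trunc m α s ∪ ⋃ i, {x : EE m | ∑ j, |x j| ≤ α ∧ α - s < |x i|}) := measure_mono h1
      _ ≤ volume (trunc m α s) + volume (⋃ i, {x : EE m | ∑ j, |x j| ≤ α ∧ α - s < |x i|}) :=
          measure_union_le _ _
      _ ≤ volume (cross m 1) + ∑ i : Fin (m + 1), ENNReal.ofReal (s ^ (m + 1)) * volume (cross m 1) := by
          gcongr
          exact (measure_iUnion_fintype_le _ _).trans (Finset.sum_le_sum fun i _ => cap_le i hs)
      _ = _ := by
          rw [Finset.sum_const, Finset.card_univ, Fintype.card_fin, nsmul_eq_mul,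
            ENNReal.ofReal_add (by norm_num) (by positivity),
            ENNReal.ofReal_mul (p := (m : ℝ) + 1) (by positivity), ENNReal.ofReal_one,
            show (m : ℝ) + 1 = ((m + 1 : ℕ) : ℝ) by push_cast; ring, ENNReal.ofReal_natCast]
          ring
  have h3 : ENNReal.ofReal (1 + ((m : ℝ) + 1) * s ^ (m + 1)) * volume (cross m 1) <
      ENNReal.ofReal (α ^ (m + 1)) * volume (cross m 1) := by
    apply ENNReal.mul_lt_mul_left vol_pos.ne' vol_fin.ne
    rw [ENNReal.ofReal_lt_ofReal_iff (by positivity)]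
    exact hbig
  exact absurd h3 (not_lt.mpr h2)

theorem affine_image (A : EE m ≃ᵃ[ℝ] EE m) (X : Set (EE m)) :
    μH[(m : ℝ)] (A '' X) = μH[(m : ℝ)] (A.linear '' X) := by
  have : A '' X = (fun x => x - (-(A 0))) '' (A.linear '' X) := by
    rw [image_image]
    apply image_congr
    intro x _
    have h := A.map_vadd 0 x
    simp only [vadd_eq_add, add_zero] at h
    rw [h]
    abel
  rw [this, mu_sub]

theorem affine_frontier (A : EE m ≃ᵃ[ℝ] EE m) (X : Set (EE m)) :
    frontier (A '' X) = A '' frontier X :=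
  (A.toContinuousAffineEquiv.toHomeomorph.image_frontier X).symm

theorem main (k : ℕ) : ∃ C₁ C₂ : ConvexBody (EE (k + 2)),
    (interior (C₁ : Set (EE (k + 2)))).Nonempty ∧ (interior (C₂ : Set (EE (k + 2)))).Nonempty ∧
    (∀ x ∈ C₁, -x ∈ C₁) ∧ (∀ x ∈ C₂, -x ∈ C₂) ∧
    (∀ A : EE (k + 2) ≃ᵃ[ℝ] EE (k + 2),
      μH[((k + 2 : ℕ) : ℝ)] (frontier (A '' (C₁ : Set (EE (k + 2))))) ≤
        μH[((k + 2 : ℕ) : ℝ)] (frontier (A '' (C₂ : Set (EE (k + 2)))))) ∧
    volume (C₂ : Set (EE (k + 2))) < volume (C₁ : Set (EE (k + 2))) := by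
  set s : ℝ := 1 / 3 with hs
  have hs0 : 0 < s := by rw [hs]; norm_num
  have hs1 : 2 * s < 1 := by rw [hs]; norm_num
  have hspow : 0 < s ^ (k + 2) := by positivity
  set β : ℝ := 1 + ((k : ℝ) + 3) / 3 * s ^ (k + 2) with hβ
  have hβ1 : 1 < β := by
    rw [hβ]
    have : 0 < ((k : ℝ) + 3) / 3 * s ^ (k + 2) := by positivity
    linarith
  set α : ℝ := β ^ (((k + 2 : ℕ) : ℝ)⁻¹) with hα
  have hpow : α ^ (k + 2) = β := Real.rpow_inv_natCast_pow (by linarith) (by omega)
  have hα1 : 1 < α := Real.one_lt_rpow hβ1 (by positivity)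
  have hc : 0 ≤ α ^ (k + 2) - ((k : ℝ) + 3) * s ^ (k + 2) := by
    have h1 : ((k : ℝ) + 3) * s ^ (k + 2) ≤ 1 := by
      have h2 : (1 + ((k + 2 : ℕ) : ℝ) * 2) ≤ (1 + 2) ^ (k + 2) :=
        one_add_mul_le_pow (by norm_num) (k + 2)
      rw [hs, one_div, inv_pow, ← div_eq_mul_inv, div_le_one (by positivity)]
      push_cast at h2
      have h3 : ((1 : ℝ) + 2) = 3 := by norm_num
      rw [h3] at h2
      have hk : (0 : ℝ) ≤ k := Nat.cast_nonneg k
      linarith
    rw [hpow]; linarith
  have hsym : ∀ (x : EE (k + 2)) (i : Fin (k + 2 + 1)), |(-x) i| = |x i| := fun x i => by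
    have : (-x) i = -(x i) := rfl
    rw [this, abs_neg]
  refine ⟨⟨trunc (k + 2) α s, trunc_convex α s, trunc_compact α s,
      ⟨0, interior_subset (interior_trunc (by simp; linarith) (by simp; linarith))⟩⟩,
    ⟨cross (k + 2) 1, cross_convex 1, cross_compact 1,
      ⟨0, interior_subset (interior_cross (by simp))⟩⟩, ?_, ?_, ?_, ?_, ?_, ?_⟩
  · exact ⟨0, interior_trunc (by simp; linarith) (by simp; linarith)⟩
  · exact ⟨0, interior_cross (by simp)⟩
  · rintro x ⟨hx1, hx2⟩
    refine ⟨?_, fun i => ?_⟩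
    · simp only [hsym]; exact hx1
    · rw [hsym]; exact hx2 i
  · intro x hx
    have hx' : ∑ i, |x i| ≤ 1 := hx
    show ∑ i, |(-x) i| ≤ 1
    simp only [hsym]; exact hx'
  · intro A
    show μH[((k + 2 : ℕ) : ℝ)] (frontier (A '' (trunc (k + 2) α s))) ≤
      μH[((k + 2 : ℕ) : ℝ)] (frontier (A '' (cross (k + 2) 1)))
    rw [affine_frontier, affine_frontier, affine_image, affine_image]
    exact compare k hs0 (by linarith) hpow hc A.linear
  · show volume (cross (k + 2) 1) < volume (trunc (k + 2) α s)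
    apply vol_trunc hs0 (by linarith)
    have h1 : α ^ (k + 2 + 1) = β * α := by rw [pow_succ, hpow]
    have h2 : s ^ (k + 2 + 1) = s ^ (k + 2) * (1 / 3) := by rw [pow_succ, hs]
    rw [h1, h2]
    have h3 : β < β * α := by nlinarith
    refine lt_of_le_of_lt (le_of_eq ?_) h3
    rw [hβ]; push_cast; ring

end Pool.Agent.H490R3.ASA
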